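import Pool.Agent.helper19.MX.SpecC

set_option linter.unusedVariables false
set_option linter.style.haveILetI false

namespace MX

open Pool.Agent.helper53.AU AN
open scoped Classical Topology IntermediateField
open Finset (range powerset Icc)

noncomputable section

variable {k F : Type} [Field k] [Field F] [Algebra k F]

/-- the elements of order at least `n` -/
def BSE_sub (P : Place k F) (n : ℤ) : Submodule k F where
  carrier := {f | P.Ge n f}
  zero_mem' := P.ge_zero n
  add_mem' := fun ha hb => ha.add hb
  smul_mem' := fun c _ hf => hf.smul c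

theorem BSE_ind (P : Place k F)
    (hres : ∀ f : F, P.Ge 0 f → ∃ c : k, P.Ge 1 (f - algebraMap k F c)) (r : ℤ) :
    ∀ (n : ℕ) (V : Submodule k F), FiniteDimensional k V → Module.finrank k V = n →
      (∀ f ∈ V, f ≠ 0 → r ≤ P.ord f) →
      ∃ t : Fin n → F, (∀ j, t j ∈ V ∧ t j ≠ 0) ∧ Function.Injective (fun j => P.ord (t j)) := by
  intro n
  induction n with
  | zero =>
    intro V _ _ _
    exact ⟨fun j => j.elim0, fun j => j.elim0, fun j => j.elim0⟩
  | succ n ih =>
    intro V hfd hdim hb
    have hne : V ≠ ⊥ := by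
      rintro rfl
      rw [finrank_bot] at hdim
      omega
    obtain ⟨g, hg, hg0⟩ := Submodule.exists_mem_ne_zero_of_ne_bot hne
    obtain ⟨r0, ⟨f0, hf0, hf00, hfr⟩, hmin⟩ := Int.exists_least_of_bdd
      (P := fun z : ℤ => ∃ f ∈ V, f ≠ 0 ∧ P.ord f = z)
      ⟨r, fun z ⟨f, hf, hf0, hz⟩ => hz ▸ hb f hf hf0⟩ ⟨_, g, hg, hg0, rfl⟩
    have hsum : V = Submodule.span k {f0} ⊔ (V ⊓ BSE_sub P (r0 + 1)) := by
      apply le_antisymm
      · intro f hf
        have h1 : P.Ge 0 (f / f0) := by
          by_cases hfz : f = 0
          · left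
            rw [hfz, zero_div]
          · right
            rw [P.ord_div hfz hf00, hfr]
            have := hmin _ ⟨f, hf, hfz, rfl⟩
            omega
        obtain ⟨c, hc⟩ := hres _ h1
        have h2 : P.Ge (r0 + 1) (f - c • f0) := by
          have h3 : f - c • f0 = f0 * (f / f0 - algebraMap k F c) := by
            rw [Algebra.smul_def]
            field_simp
          rw [h3]
          have h4 := (P.ge_ord f0).mul hc
          rw [hfr] at h4
          exact h4
        have h5 : f = c • f0 + (f - c • f0) := by ring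
        rw [h5]
        exact Submodule.add_mem_sup (Submodule.smul_mem _ _ (Submodule.mem_span_singleton_self _))
          ⟨V.sub_mem hf (V.smul_mem c hf0), h2⟩
      · apply sup_le _ inf_le_left
        rw [Submodule.span_singleton_le_iff_mem]
        exact hf0
    have hinf : Submodule.span k {f0} ⊓ (V ⊓ BSE_sub P (r0 + 1)) = ⊥ := by
      rw [eq_bot_iff]
      rintro f ⟨h1, _, h2⟩
      obtain ⟨c, rfl⟩ := Submodule.mem_span_singleton.1 h1
      rw [Submodule.mem_bot]
      by_contra h3
      have hc : c ≠ 0 := by
        rintro rfl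
        exact h3 (zero_smul _ _)
      have h4 : P.ord (c • f0) = r0 := by
        rw [Algebra.smul_def, P.ord_mul _ _ (by simpa using hc) hf00, P.ord_const c hc, hfr, zero_add]
      have h5 := (h2 : P.Ge (r0 + 1) (c • f0)).le h3
      omega
    haveI : FiniteDimensional k V := hfd
    haveI hfd2 : FiniteDimensional k (V ⊓ BSE_sub P (r0 + 1) : Submodule k F) :=
      Submodule.finiteDimensional_of_le inf_le_left
    have hd : Module.finrank k (V ⊓ BSE_sub P (r0 + 1) : Submodule k F) = n := by
      have h1 := Submodule.finrank_sup_add_finrank_inf_eq (Submodule.span k {f0}) (V ⊓ BSE_sub P (r0 + 1))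
      rw [← hsum, hinf, finrank_bot, hdim, finrank_span_singleton hf00] at h1
      omega
    obtain ⟨t, ht, hinj⟩ := ih _ hfd2 hd (fun f hf hf0 => hb f hf.1 hf0)
    refine ⟨Fin.cons f0 t, ?_, ?_⟩
    · intro j
      refine Fin.cases ⟨hf0, hf00⟩ (fun j => ?_) j
      simp only [Fin.cons_succ]
      exact ⟨(ht j).1.1, (ht j).2⟩
    · have hgt : ∀ j, r0 < P.ord (t j) := by
        intro j
        have := ((ht j).1.2 : P.Ge (r0 + 1) (t j)).le (ht j).2
        omega
      intro i j
      refine Fin.cases ?_ (fun i => ?_) i <;> refine Fin.cases ?_ (fun j => ?_) j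
      · intro _
        rfl
      · intro h
        simp only [Fin.cons_zero, Fin.cons_succ] at h
        have := hgt j
        omega
      · intro h
        simp only [Fin.cons_zero, Fin.cons_succ] at h
        have := hgt i
        omega
      · intro h
        simp only [Fin.cons_succ] at h
        rw [hinj h]

theorem BSE (hQV1 : QV1_stmt) (hQR1 : QR1_stmt) : BSE_stmt := by
  intro k F _ _ _ _ hFF P m
  exact BSE_ind P (hQV1 k F hFF P) (-(m : ℤ)) _ _ ((hQR1 k F hFF).1 _) rfl (fun f hf hf0 => by
    have h1 := (hf.resolve_left hf0) P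
    simpa using h1)

end

end MX
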