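import Pool.Agent.helper19.MX.SpecA

set_option linter.unusedVariables false

namespace MX

open Pool.Agent.helper53.AU AN
open scoped Classical Topology
open Finset (range powerset Icc)

noncomputable section

theorem IDE_zero {L : Type} [Field L] (h : ℕ) (b : ℕ → L) : PP h b (0 : L) = 0 := by
  unfold PP
  apply Finset.sum_eq_zero
  intro i _
  rw [zero_pow (by positivity), zero_pow (by positivity)]
  ring

theorem IDE (hIDP : IDP_stmt) : IDE_stmt := by
  intro L _ _ h hh b c d hc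
  have h1 := hIDP L h hh b d d
  have h2 : d ^ 2 + d * d = 0 := by
    rw [← sq]
    exact CharTwo.add_self_eq_zero _
  rw [h2, IDE_zero] at h1
  have h3 : PP (h + 1) (Ud h b d) d = 0 := by
    rw [h1]
    ring
  have h4 : PP (h + 1) c d - PP (h + 1) (Ud h b d) d =
      (c 1 ^ 2 * d ^ (2 ^ (h + 2)) + c 1 * d ^ (2 ^ h)) -
        (Ud h b d 1 ^ 2 * d ^ (2 ^ (h + 2)) + Ud h b d 1 * d ^ (2 ^ h)) := by
    unfold PP
    rw [← Finset.sum_sub_distrib, ← Finset.add_sum_Ioc_eq_sum_Icc (by omega : 1 ≤ h + 1)]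
    have h5 : ∑ i ∈ Finset.Ioc 1 (h + 1), ((c i ^ (2 ^ i) * d ^ (2 ^ (h + 1 + i)) + c i * d ^ (2 ^ (h + 1 - i))) -
        (Ud h b d i ^ (2 ^ i) * d ^ (2 ^ (h + 1 + i)) + Ud h b d i * d ^ (2 ^ (h + 1 - i)))) = 0 := by
      apply Finset.sum_eq_zero
      intro i hi
      rw [Finset.mem_Ioc] at hi
      rw [hc i (by omega) hi.2, sub_self]
    rw [h5, add_zero]
    have e1 : h + 1 + 1 = h + 2 := rfl
    have e2 : h + 1 - 1 = h := rfl
    rw [e1, e2, pow_one]
  rw [h3, sub_zero] at h4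
  rw [h4, CharTwo.sub_eq_add, CharTwo.add_sq]
  ring

end

end MX
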