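import Pool.Agent.helper19.MX.SpecD

/-!
# Project mx, row KL4: genera for a Klein four group
-/

set_option linter.unusedVariables false

namespace MX

open Pool.Agent.helper53.AU AN
open scoped Classical Topology

noncomputable section

theorem KL4_mem {G : Type} [Group G] (S : Finset G) (A : Set G) (h1 : (1 : G) ∈ S)
    (hm : ∀ x ∈ S, ∀ y ∈ S, x * y ∈ S) (hi : ∀ x ∈ S, x⁻¹ ∈ S) (hA : ∀ x ∈ A, x ∈ S)
    (hS : ∀ x ∈ S, x ∈ Subgroup.closure A) (x : G) : x ∈ Subgroup.closure A ↔ x ∈ S := by
  refine ⟨fun hx => ?_, hS x⟩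
  let K : Subgroup G :=
    { carrier := {x | x ∈ S}
      mul_mem' := fun {a b} ha hb => hm a ha b hb
      one_mem' := h1
      inv_mem' := fun {a} ha => hi a ha }
  have hK : Subgroup.closure A ≤ K := (Subgroup.closure_le K).2 fun x hx => hA x hx
  exact hK hx

theorem KL4_card {G : Type} [Group G] (H : Subgroup G) (S : Finset G) (h : ∀ x, x ∈ H ↔ x ∈ S) :
    Nat.card H = S.card := by
  have h1 : (H : Set G) = (S : Set G) := by
    ext x
    exact h x
  have h2 : Nat.card H = Nat.card ((H : Set G) : Type) := rfl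
  rw [h2, h1]
  simp

theorem KL4_fin {G : Type} [Group G] (H : Subgroup G) (S : Finset G) (h : ∀ x, x ∈ H ↔ x ∈ S) :
    Finite H := by
  have h1 : (H : Set G) = (S : Set G) := by
    ext x
    exact h x
  have h2 : (H : Set G).Finite := by
    rw [h1]
    exact S.finite_toSet
  exact h2.to_subtype

theorem KL4_sum {G : Type} [Group G] (H : Subgroup G) (S : Finset G) (h : ∀ x, x ∈ H ↔ x ∈ S)
    (f : G → ℤ) : ∑ᶠ x : H, f x = ∑ x ∈ S, f x := by
  have h1 : ∑ᶠ x : H, f x = ∑ᶠ (x : G) (_ : x ∈ H), f x :=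
    finsum_subtype_eq_finsum_cond (f := f) (fun x => x ∈ H)
  rw [h1]
  have h2 : ∀ x : G, (∑ᶠ (_ : x ∈ H), f x) = ∑ᶠ (_ : x ∈ (S : Set G)), f x := by
    intro x
    have h3 : (x ∈ H) = (x ∈ (S : Set G)) := propext (h x)
    rw [h3]
  rw [finsum_congr h2]
  exact finsum_mem_coe_finset f S

variable {k F : Type} [Field k] [Field F] [Algebra k F]

/-- the contribution of `s` at `P` -/
def KL4_D (s : F ≃ₐ[k] F) (P : Place k F) : ℤ :=
  if s ≠ 1 ∧ s • P = P then ((P.jump s : ℤ) + 1) else 0

theorem KL4_one (P : Place k F) : KL4_D (1 : F ≃ₐ[k] F) P = 0 := by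
  unfold KL4_D
  rw [if_neg]
  rintro ⟨h, -⟩
  exact h rfl

theorem KL4_main [IsAlgClosed k] (hQF11 : QF11_stmt) (hRHG : RHG_stmt) (hF : IsFF k F) (g : ℕ)
    (hg : IsGenus k F g) (H : Subgroup (F ≃ₐ[k] F)) (S : Finset (F ≃ₐ[k] F))
    (h : ∀ x, x ∈ H ↔ x ∈ S) (γ : ℕ) (hγ : IsGenus k (IntermediateField.fixedField H) γ) :
    2 * (g : ℤ) - 2 = (S.card : ℤ) * (2 * (γ : ℤ) - 2) +
      ∑ s ∈ S, ∑ᶠ P : Place k F, KL4_D s P := by
  have h1 := hRHG k F hF g hg H (KL4_fin H S h) γ hγ
  rw [KL4_card H S h] at h1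
  rw [h1]
  have h2 : ∀ P : Place k F, (∑ᶠ s : H,
        if (s : F ≃ₐ[k] F) ≠ 1 ∧ (s : F ≃ₐ[k] F) • P = P then ((P.jump s : ℤ) + 1) else 0) =
        ∑ s ∈ S, KL4_D s P := fun P => KL4_sum H S h (fun s => KL4_D s P)
  rw [finsum_congr h2]
  have h3 : ∀ s ∈ S, (Function.support fun P : Place k F => KL4_D s P).Finite := by
    intro s _
    by_cases hs : s = 1
    · subst hs
      have h4 : (Function.support fun P : Place k F => KL4_D (1 : F ≃ₐ[k] F) P) = ∅ := by
        ext P
        simp [KL4_one]
      rw [h4]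
      exact Set.finite_empty
    · refine (hQF11 k F hF s hs).subset ?_
      intro P hP
      rw [Function.mem_support] at hP
      by_contra hcon
      apply hP
      show KL4_D s P = 0
      unfold KL4_D
      rw [if_neg]
      rintro ⟨-, h5⟩
      exact hcon h5
  rw [finsum_sum_comm S (fun P s => KL4_D s P) h3]

theorem KL4 (hQF11 : QF11_stmt) (hRHG : RHG_stmt) : KL4_stmt := by
  intro k F _ _ _ _ hF s t hs ht hst hss htt hcomm g gs gt gu gV hg hgs hgt hgu hgV
  have hu : s * t ≠ 1 := by
    intro h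
    apply hst
    have h1 : s * t = t * t := by rw [h, htt]
    exact mul_right_cancel h1
  have huu : (s * t) * (s * t) = 1 := by
    have h1 : (s * t) * (s * t) = (s * s) * (t * t) := by
      rw [mul_assoc, ← mul_assoc t s t, ← hcomm, mul_assoc s t t, ← mul_assoc s s]
    rw [h1, hss, htt, one_mul]
  have two : ∀ σ : F ≃ₐ[k] F, σ ≠ 1 → σ * σ = 1 → ∀ x, x ∈ Subgroup.zpowers σ ↔
      x ∈ ({1, σ} : Finset (F ≃ₐ[k] F)) := by
    intro σ h1 h2
    rw [Subgroup.zpowers_eq_closure]
    refine KL4_mem _ _ (by simp) ?_ ?_ ?_ ?_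
    · intro x hx y hy
      simp only [Finset.mem_insert, Finset.mem_singleton] at hx hy ⊢
      rcases hx with rfl | rfl <;> rcases hy with rfl | rfl
      · left; rw [one_mul]
      · right; rw [one_mul]
      · right; rw [mul_one]
      · left; exact h2
    · intro x hx
      simp only [Finset.mem_insert, Finset.mem_singleton] at hx ⊢
      rcases hx with rfl | rfl
      · left; exact inv_one
      · right; exact inv_eq_of_mul_eq_one_right h2
    · intro x hx
      rw [Set.mem_singleton_iff] at hx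
      simp [hx]
    · intro x hx
      simp only [Finset.mem_insert, Finset.mem_singleton] at hx
      rcases hx with rfl | rfl
      · exact Subgroup.one_mem _
      · exact Subgroup.subset_closure rfl
  have card2 : ∀ σ : F ≃ₐ[k] F, σ ≠ 1 → (({1, σ} : Finset (F ≃ₐ[k] F)).card : ℤ) = 2 := by
    intro σ h1
    rw [Finset.card_pair (Ne.symm h1)]
    rfl
  have sum2 : ∀ σ : F ≃ₐ[k] F, σ ≠ 1 →
      ∑ x ∈ ({1, σ} : Finset (F ≃ₐ[k] F)), ∑ᶠ P : Place k F, KL4_D x P =
        ∑ᶠ P : Place k F, KL4_D σ P := by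
    intro σ h1
    rw [Finset.sum_pair (Ne.symm h1)]
    simp only [KL4_one, finsum_zero, zero_add]
  have hsu : s ≠ s * t := by
    intro h
    apply ht
    have h1 : s * 1 = s * t := by rw [mul_one]; exact h
    exact (mul_left_cancel h1).symm
  have htu : t ≠ s * t := by
    intro h
    apply hs
    have h1 : 1 * t = s * t := by rw [one_mul]; exact h
    exact (mul_right_cancel h1).symm
  have e1 : s * (s * t) = t := by rw [← mul_assoc, hss, one_mul]
  have e2 : t * (s * t) = s := by rw [hcomm, ← mul_assoc, htt, one_mul]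
  have e3 : (s * t) * s = t := by rw [mul_assoc, ← hcomm, e1]
  have e4 : (s * t) * t = s := by rw [mul_assoc, htt, mul_one]
  have four : ∀ x, x ∈ Subgroup.closure ({s, t} : Set (F ≃ₐ[k] F)) ↔
      x ∈ ({1, s, t, s * t} : Finset (F ≃ₐ[k] F)) := by
    refine KL4_mem _ _ (by simp) ?_ ?_ ?_ ?_
    · intro x hx y hy
      simp only [Finset.mem_insert, Finset.mem_singleton] at hx hy ⊢
      rcases hx with hx | hx | hx | hx <;> rcases hy with hy | hy | hy | hy <;> rw [hx, hy]
      · left; exact one_mul _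
      · right; left; exact one_mul _
      · right; right; left; exact one_mul _
      · right; right; right; exact one_mul _
      · right; left; exact mul_one _
      · left; exact hss
      · right; right; right; rfl
      · right; right; left; exact e1
      · right; right; left; exact mul_one _
      · right; right; right; exact hcomm.symm
      · left; exact htt
      · right; left; exact e2
      · right; right; right; exact mul_one _
      · right; right; left; exact e3
      · right; left; exact e4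
      · left; exact huu
    · intro x hx
      simp only [Finset.mem_insert, Finset.mem_singleton] at hx ⊢
      rcases hx with hx | hx | hx | hx <;> rw [hx]
      · left; exact inv_one
      · right; left; exact inv_eq_of_mul_eq_one_right hss
      · right; right; left; exact inv_eq_of_mul_eq_one_right htt
      · right; right; right; exact inv_eq_of_mul_eq_one_right huu
    · intro x hx
      rw [Set.mem_insert_iff, Set.mem_singleton_iff] at hx
      rcases hx with hx | hx <;> simp [hx]
    · intro x hx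
      have m1 : s ∈ Subgroup.closure ({s, t} : Set (F ≃ₐ[k] F)) :=
        Subgroup.subset_closure (Set.mem_insert _ _)
      have m2 : t ∈ Subgroup.closure ({s, t} : Set (F ≃ₐ[k] F)) :=
        Subgroup.subset_closure (Set.mem_insert_of_mem _ rfl)
      simp only [Finset.mem_insert, Finset.mem_singleton] at hx
      rcases hx with hx | hx | hx | hx <;> rw [hx]
      · exact Subgroup.one_mem _
      · exact m1
      · exact m2
      · exact Subgroup.mul_mem _ m1 m2
  have n1 : (1 : F ≃ₐ[k] F) ∉ ({s, t, s * t} : Finset (F ≃ₐ[k] F)) := by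
    simp only [Finset.mem_insert, Finset.mem_singleton, not_or]
    exact ⟨Ne.symm hs, Ne.symm ht, Ne.symm hu⟩
  have n2 : s ∉ ({t, s * t} : Finset (F ≃ₐ[k] F)) := by
    simp only [Finset.mem_insert, Finset.mem_singleton, not_or]
    exact ⟨hst, hsu⟩
  have card4 : (({1, s, t, s * t} : Finset (F ≃ₐ[k] F)).card : ℤ) = 4 := by
    rw [Finset.card_insert_of_notMem n1, Finset.card_insert_of_notMem n2, Finset.card_pair htu]
    rfl
  have sum4 : ∑ x ∈ ({1, s, t, s * t} : Finset (F ≃ₐ[k] F)), ∑ᶠ P : Place k F, KL4_D x P =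
      ∑ᶠ P : Place k F, KL4_D s P + (∑ᶠ P : Place k F, KL4_D t P +
        ∑ᶠ P : Place k F, KL4_D (s * t) P) := by
    rw [Finset.sum_insert n1, Finset.sum_insert n2, Finset.sum_pair htu]
    simp only [KL4_one, finsum_zero, zero_add]
  have r1 := KL4_main hQF11 hRHG hF g hg _ _ (two s hs hss) gs hgs
  have r2 := KL4_main hQF11 hRHG hF g hg _ _ (two t ht htt) gt hgt
  have r3 := KL4_main hQF11 hRHG hF g hg _ _ (two (s * t) hu huu) gu hgu
  have r4 := KL4_main hQF11 hRHG hF g hg _ _ four gV hgV
  rw [card2 _ hs, sum2 _ hs] at r1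
  rw [card2 _ ht, sum2 _ ht] at r2
  rw [card2 _ hu, sum2 _ hu] at r3
  rw [card4, sum4] at r4
  omega

end

end MX
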